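import Pool.Agent.Run7.h594.HU.GLUE

/-! Piece DEC (helper594). -/

set_option autoImplicit false

namespace Run7.h594.HU

open Run7.h747.HU Finset

/-- the embedding of the signs in `ℂ` -/
noncomputable def cx (u : ℤˣ) : ℂ := (((u : ℤˣ) : ℤ) : ℂ)

lemma cx_inj {u v : ℤˣ} (h : cx u = cx v) : u = v := by
  unfold cx at h
  exact Units.ext (by exact_mod_cast h)

lemma cx_mul (u v : ℤˣ) : cx (u * v) = cx u * cx v := by
  unfold cx; push_cast; ring

lemma cx_one : cx 1 = 1 := by simp [cx]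

lemma cx_prod {ι : Type} (s : Finset ι) (f : ι → ℤˣ) : cx (∏ i ∈ s, f i) = ∏ i ∈ s, cx (f i) := by
  classical
  induction s using Finset.induction_on with
  | empty => simp [cx_one]
  | insert a s ha ih => rw [prod_insert ha, prod_insert ha, cx_mul, ih]

open Classical in
/-- the sign -/
noncomputable def sg (z : ℂ) : ℤˣ := if z = 1 then 1 else -1

lemma cx_sg {z : ℂ} (h : z ^ 2 = 1) : cx (sg z) = z := by
  unfold sg
  split_ifs with h1
  · rw [cx_one, h1]
  · have h2 : (z - 1) * (z + 1) = 0 := by linear_combination h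
    rcases mul_eq_zero.1 h2 with h3 | h3
    · exact absurd (by linear_combination h3) h1
    · unfold cx
      push_cast
      linear_combination -h3

/-- an odd power of a sign -/
lemma pow_odd (u : ℤˣ) {k : ℕ} (hk : Odd k) : u ^ k = u := by
  rcases Int.units_eq_one_or u with rfl | rfl
  · simp
  · exact hk.neg_one_pow

section lc

variable {l a : ℕ} (hl : l.Prime) {c : ℕ → ℤˣ}
  (hmul : ∀ m n : ℕ, ¬ l ∣ m → ¬ l ∣ n → c (m * n) = c m * c n)
  (hmod : ∀ m n : ℕ, ¬ l ∣ m → m ≡ n [MOD l ^ a] → c m = c n)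

include hl hmul in
lemma c_one : c 1 = 1 := by
  have h1 : ¬ l ∣ 1 := fun h => hl.one_lt.ne' (Nat.dvd_one.1 h)
  have := hmul 1 1 h1 h1
  rw [mul_one] at this
  exact (mul_eq_left.1 this.symm)

include hl hmul in
lemma c_pow {x : ℕ} (hx : ¬ l ∣ x) (k : ℕ) : c (x ^ k) = c x ^ k := by
  induction k with
  | zero => rw [pow_zero, pow_zero, c_one hl hmul]
  | succ k ih =>
    rw [pow_succ, pow_succ, hmul _ _ (fun h => hx (hl.dvd_of_dvd_pow h)) hx, ih]

/-- square roots modulo powers of two -/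
lemma sqrt_two_pow (x : ℕ) (hx : x ≡ 1 [MOD 8]) : ∀ a : ℕ, 3 ≤ a →
    ∃ s : ℕ, ¬ 2 ∣ s ∧ s ^ 2 ≡ x [MOD 2 ^ a] := by
  intro a ha
  induction a, ha using Nat.le_induction with
  | base => exact ⟨1, by norm_num, by simpa using hx.symm⟩
  | succ a ha ih =>
    obtain ⟨s, hs, h⟩ := ih
    by_cases h2 : s ^ 2 ≡ x [MOD 2 ^ (a + 1)]
    · exact ⟨s, hs, h2⟩
    · refine ⟨s + 2 ^ (a - 1), ?_, ?_⟩
      · intro hd
        apply hs
        have : 2 ∣ 2 ^ (a - 1) := dvd_pow_self 2 (by omega)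
        exact (Nat.dvd_add_left this).1 hd
      · rw [Nat.modEq_iff_dvd] at h h2 ⊢
        obtain ⟨k, hk⟩ := h
        have hkodd : ¬ (2 : ℤ) ∣ k := by
          rintro ⟨k', rfl⟩
          apply h2
          refine ⟨k', ?_⟩
          rw [hk]; push_cast; ring
        have hsodd : ¬ (2 : ℤ) ∣ (s : ℤ) := by exact_mod_cast hs
        obtain ⟨j, hj⟩ : (2 : ℤ) ∣ k - s := by omega
        obtain ⟨b, rfl⟩ : ∃ b, a = b + 3 := ⟨a - 3, by omega⟩
        refine ⟨j - 2 ^ b, ?_⟩
        have e1 : b + 3 - 1 = b + 2 := by omega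
        rw [e1]
        push_cast at hk ⊢
        have e2 : (x : ℤ) = (s : ℤ) ^ 2 + 2 ^ (b + 3) * k := by linear_combination hk
        have e3 : k = s + 2 * j := by linear_combination hj
        rw [e2, e3]
        ring

include hl hmul hmod in
lemma c_of_one {x : ℕ} (hx : x ≡ 1 [MOD (if l = 2 then 8 else l)]) : c x = 1 := by
  have hx1 : x ≡ 1 [MOD l] := by
    split_ifs at hx with h
    · subst h; exact hx.of_dvd (by norm_num)
    · exact hx
  have hxl : ¬ l ∣ x := fun h => hl.one_lt.ne' (Nat.dvd_one.1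
    ((Nat.modEq_zero_iff_dvd).1 (hx1.symm.trans ((Nat.modEq_zero_iff_dvd).2 h))))
  have h1l : ¬ l ∣ 1 := fun h => hl.one_lt.ne' (Nat.dvd_one.1 h)
  by_cases h2 : l = 2
  · subst h2
    rw [if_pos rfl] at hx
    obtain ⟨s, hs, h⟩ := sqrt_two_pow x hx (a + 3) (by omega)
    have h3 : s ^ 2 ≡ x [MOD 2 ^ a] := h.of_dvd (pow_dvd_pow 2 (by omega))
    rw [← hmod (s ^ 2) x (fun h => hs (Nat.prime_two.dvd_of_dvd_pow h)) h3,
      c_pow hl hmul hs 2]
    exact Int.units_sq _
  · have h3 : x ^ (l ^ a) ≡ 1 [MOD l ^ a] := by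
      have h4 : ((l : ℕ) : ℤ) ∣ (x : ℤ) - 1 := by
        have := (Nat.modEq_iff_dvd.1 hx1.symm)
        push_cast at this
        exact this
      have h5 := dvd_sub_pow_of_dvd_sub h4 a
      refine (Nat.modEq_iff_dvd.2 ?_).symm
      push_cast
      rw [one_pow] at h5
      exact (pow_dvd_pow _ (Nat.le_succ a)).trans h5
    have h4 := hmod (x ^ (l ^ a)) 1 (fun h => hxl (hl.dvd_of_dvd_pow h)) h3
    rw [c_one hl hmul, c_pow hl hmul hxl, pow_odd] at h4
    · exact h4
    · exact Odd.pow (hl.odd_of_ne_two h2)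

include hl hmul hmod in
lemma lc_of : LC l c := by
  refine ⟨hmul, fun u v hu huv => ?_⟩
  have huv' : u ≡ v [MOD l] := by
    split_ifs at huv with h
    · subst h; exact huv.of_dvd (by norm_num)
    · exact huv
  have hv : ¬ l ∣ v := fun h => hu ((Nat.modEq_zero_iff_dvd).1
    (huv'.trans ((Nat.modEq_zero_iff_dvd).2 h)))
  -- an inverse of `v`
  obtain ⟨w, hw⟩ : ∃ w : ℕ, v * w ≡ 1 [MOD l ^ (a + 3)] := by
    have hcop : Nat.Coprime v (l ^ (a + 3)) :=
      Nat.Coprime.pow_right _ ((Nat.Prime.coprime_iff_not_dvd hl).2 hv).symm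
    obtain ⟨w, -, hw⟩ := Nat.exists_mul_mod_eq_one_of_coprime hcop
      (Nat.one_lt_pow (by omega) hl.one_lt)
    refine ⟨w, ?_⟩
    unfold Nat.ModEq
    rw [hw, Nat.mod_eq_of_lt (Nat.one_lt_pow (by omega) hl.one_lt)]
  have h1l : ¬ l ∣ 1 := fun h => hl.one_lt.ne' (Nat.dvd_one.1 h)
  have hwl : ¬ l ∣ w := by
    intro h
    have h1 : v * w ≡ 1 [MOD l] := hw.of_dvd (dvd_pow_self l (by omega))
    exact h1l ((Nat.modEq_zero_iff_dvd).1 (h1.symm.trans
      ((Nat.modEq_zero_iff_dvd).2 (Dvd.dvd.mul_left h v))))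
  have hvw : ¬ l ∣ v * w := fun h => (hl.dvd_mul.1 h).elim hv hwl
  have h1 : c v * c w = 1 := by
    rw [← hmul v w hv hwl, hmod (v * w) 1 hvw (hw.of_dvd (pow_dvd_pow l (by omega))),
      c_one hl hmul]
  have h2 : c u * c w = 1 := by
    rw [← hmul u w hu hwl]
    apply c_of_one hl hmul hmod
    refine (huv.mul_right w).trans ?_
    split_ifs with h
    · subst h
      exact hw.of_dvd (by
        have : (8 : ℕ) = 2 ^ 3 := by norm_num
        rw [this]; exact pow_dvd_pow 2 (by omega))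
    · exact hw.of_dvd (dvd_pow_self l (by omega))
  exact mul_right_cancel (h2.trans h1.symm)

end lc

/-- `loc` is completely multiplicative -/
lemma loc_cm {l : ℕ} (hl : l.Prime) {c : ℕ → ℤˣ} (hc : LC l c) (e : ℤˣ) :
    ∀ m n : ℕ, 1 ≤ m → 1 ≤ n → loc l c e (m * n) = loc l c e m * loc l c e n := by
  have h1 : ∀ n : ℕ, 1 ≤ n → ∀ m : ℕ, ¬ l ∣ m → loc l c e (m * n) = loc l c e m * loc l c e n := by
    intro n
    induction n using Nat.strong_induction_on with
    | _ n ih =>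
      intro hn m hm
      by_cases hd : l ∣ n
      · obtain ⟨n', rfl⟩ := hd
        have hn' : 1 ≤ n' := Nat.pos_of_ne_zero (by rintro rfl; omega)
        have hm1 : 1 ≤ m := Nat.pos_of_ne_zero (by rintro rfl; exact hm (dvd_zero l))
        rw [show m * (l * n') = l * (m * n') by ring,
          loc_mul hl.two_le c e (Nat.mul_pos hm1 hn'), ih n' (by nlinarith [hl.two_le]) hn' m hm,
          loc_mul hl.two_le c e hn', mul_left_comm]
      · rw [loc_of_not_dvd c e hm, loc_of_not_dvd c e hd,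
          loc_of_not_dvd c e (fun h => (hl.dvd_mul.1 h).elim hm hd), hc.mul m n hm hd]
  intro m
  induction m using Nat.strong_induction_on with
  | _ m ih =>
    intro n hm hn
    by_cases hd : l ∣ m
    · obtain ⟨m', rfl⟩ := hd
      have hm' : 1 ≤ m' := Nat.pos_of_ne_zero (by rintro rfl; omega)
      rw [mul_assoc, loc_mul hl.two_le c e (Nat.mul_pos hm' hn),
        ih m' (by nlinarith [hl.two_le]) n hm' hn, loc_mul hl.two_le c e hm', mul_assoc]
    · exact h1 n hn m hd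

section comp

variable {q : ℕ}

/-- congruence modulo `q` from the congruences modulo the prime powers -/
lemma modEq_of (hq : q ≠ 0) {x y : ℕ}
    (h : ∀ l : ℕ, l.Prime → l ∣ q → x ≡ y [MOD l ^ q.factorization l]) : x ≡ y [MOD q] := by
  rw [Nat.modEq_iff_dvd, Int.natCast_dvd, Nat.dvd_iff_prime_pow_dvd_dvd]
  intro l k hl hk
  rcases Nat.eq_zero_or_pos k with rfl | hk0
  · rw [pow_zero]; exact one_dvd _
  · have h1 := h l hl ((dvd_pow_self l (by omega)).trans hk)
    rw [Nat.modEq_iff_dvd, Int.natCast_dvd] at h1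
    exact (pow_dvd_pow l ((hl.pow_dvd_iff_le_factorization hq).1 hk)).trans h1

lemma cop_parts {l : ℕ} (hl : l.Prime) (hq : q ≠ 0) :
    Nat.Coprime (l ^ q.factorization l) (q / l ^ q.factorization l) :=
  Nat.Coprime.pow_left _ (Nat.coprime_ordCompl hl hq)

/-- the component of `n` at `l` -/
noncomputable def cp (q l n : ℕ) : ℕ :=
  if h : Nat.Coprime (l ^ q.factorization l) (q / l ^ q.factorization l) then
    (Nat.chineseRemainder h n 1 : ℕ) else 1

lemma cp_spec {l : ℕ} (hl : l.Prime) (hq : q ≠ 0) (n : ℕ) :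
    cp q l n ≡ n [MOD l ^ q.factorization l] ∧ cp q l n ≡ 1 [MOD q / l ^ q.factorization l] := by
  have h := cop_parts hl hq
  unfold cp
  rw [dif_pos h]
  exact (Nat.chineseRemainder h n 1).2

lemma modEq_parts {l : ℕ} (hl : l.Prime) (hq : q ≠ 0) {x y : ℕ}
    (h1 : x ≡ y [MOD l ^ q.factorization l]) (h2 : x ≡ y [MOD q / l ^ q.factorization l]) :
    x ≡ y [MOD q] := by
  have := (Nat.modEq_and_modEq_iff_modEq_mul (cop_parts hl hq)).1 ⟨h1, h2⟩
  rwa [Nat.ordProj_mul_ordCompl_eq_self] at this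

lemma cp_mod {l : ℕ} (hl : l.Prime) (hq : q ≠ 0) {m n : ℕ}
    (h : m ≡ n [MOD l ^ q.factorization l]) : cp q l m ≡ cp q l n [MOD q] := by
  have hm := cp_spec hl hq m
  have hn := cp_spec hl hq n
  exact modEq_parts hl hq (hm.1.trans (h.trans hn.1.symm)) (hm.2.trans hn.2.symm)

lemma cp_mul {l : ℕ} (hl : l.Prime) (hq : q ≠ 0) (m n : ℕ) :
    cp q l (m * n) ≡ cp q l m * cp q l n [MOD q] := by
  have hm := cp_spec hl hq m
  have hn := cp_spec hl hq n
  have hmn := cp_spec hl hq (m * n)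
  refine modEq_parts hl hq (hmn.1.trans (hm.1.mul hn.1).symm) (hmn.2.trans ?_)
  have := (hm.2.mul hn.2).symm
  rwa [mul_one] at this

lemma cp_coprime {l : ℕ} (hl : l.Prime) (hq : q ≠ 0) {n : ℕ} (hn : ¬ l ∣ n) :
    Nat.Coprime (cp q l n) q := by
  have h := cp_spec hl hq n
  have h1 : Nat.Coprime (cp q l n) (l ^ q.factorization l) := by
    have h2 : Nat.Coprime n (l ^ q.factorization l) :=
      Nat.Coprime.pow_right _ ((Nat.Prime.coprime_iff_not_dvd hl).2 hn).symm
    rw [Nat.coprime_iff_gcd_eq_one, h.1.gcd_eq]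
    exact h2
  have h2 : Nat.Coprime (cp q l n) (q / l ^ q.factorization l) := by
    rw [Nat.coprime_iff_gcd_eq_one, h.2.gcd_eq]
    exact Nat.gcd_one_left _
  have h3 := Nat.Coprime.mul_right h1 h2
  rwa [Nat.ordProj_mul_ordCompl_eq_self] at h3

end comp

section main

variable {q : ℕ} (χ : DirichletCharacter ℂ q)

lemma chi_sq (hχ : χ ^ 2 = 1) {n : ℕ} (hn : Nat.Coprime n q) : (χ (n : ZMod q)) ^ 2 = 1 := by
  have hu : IsUnit (n : ZMod q) := (ZMod.isUnit_iff_coprime n q).2 hn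
  rw [← MulChar.pow_apply' χ (by norm_num), hχ, MulChar.one_apply hu]

lemma chi_mod {m n : ℕ} (h : m ≡ n [MOD q]) : χ (m : ZMod q) = χ (n : ZMod q) := by
  rw [(ZMod.natCast_eq_natCast_iff m n q).2 h]

open Classical in
/-- the local characters -/
noncomputable def lcc (l n : ℕ) : ℤˣ :=
  if l ∣ q ∧ ¬ l ∣ n then sg (χ ((cp q l n : ℕ) : ZMod q)) else 1

lemma cx_lcc (hχ : χ ^ 2 = 1) (hq : q ≠ 0) {l n : ℕ} (hl : l.Prime) (hlq : l ∣ q) (hn : ¬ l ∣ n) :
    cx (lcc χ l n) = χ ((cp q l n : ℕ) : ZMod q) := by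
  unfold lcc
  rw [if_pos ⟨hlq, hn⟩, cx_sg (chi_sq χ hχ (cp_coprime hl hq hn))]

lemma lcc_one {l : ℕ} (hlq : ¬ l ∣ q) (n : ℕ) : lcc χ l n = 1 := by
  unfold lcc
  rw [if_neg fun h => hlq h.1]

lemma lcc_LC (hχ : χ ^ 2 = 1) (hq : q ≠ 0) {l : ℕ} (hl : l.Prime) : LC l (lcc χ l) := by
  by_cases hlq : l ∣ q
  · refine lc_of (a := q.factorization l) hl ?_ ?_
    · intro m n hm hn
      have hmn : ¬ l ∣ m * n := fun h => (hl.dvd_mul.1 h).elim hm hn
      apply cx_inj
      rw [cx_mul, cx_lcc χ hχ hq hl hlq hm, cx_lcc χ hχ hq hl hlq hn,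
        cx_lcc χ hχ hq hl hlq hmn, chi_mod χ (cp_mul hl hq m n)]
      push_cast
      rw [map_mul]
    · intro m n hm h
      have hn : ¬ l ∣ n := by
        intro hd
        have hpos : q.factorization l ≠ 0 := by
          have := (hl.dvd_iff_one_le_factorization hq).1 hlq
          omega
        have h1 : m ≡ n [MOD l] := h.of_dvd (dvd_pow_self l hpos)
        exact hm ((Nat.modEq_zero_iff_dvd).1 (h1.trans ((Nat.modEq_zero_iff_dvd).2 hd)))
      apply cx_inj
      rw [cx_lcc χ hχ hq hl hlq hm, cx_lcc χ hχ hq hl hlq hn, chi_mod χ (cp_mod hl hq h)]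
  · refine ⟨fun m n _ _ => ?_, fun m n _ _ => ?_⟩
    · rw [lcc_one χ hlq, lcc_one χ hlq, lcc_one χ hlq, one_mul]
    · rw [lcc_one χ hlq, lcc_one χ hlq]

/-- the product formula -/
lemma prod_lcc (hχ : χ ^ 2 = 1) (hq : q ≠ 0) (S : Finset ℕ) (hS : ∀ l ∈ S, l.Prime)
    (hSq : ∀ l : ℕ, l.Prime → l ∣ q → l ∈ S) {n : ℕ} (hn : Nat.Coprime n q) :
    cx (∏ l ∈ S, lcc χ l n) = χ (n : ZMod q) := by
  classical
  have hnl : ∀ l : ℕ, l.Prime → l ∣ q → ¬ l ∣ n := by
    intro l hl hlq hln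
    exact hl.one_lt.ne' (Nat.dvd_one.1 (hn.gcd_eq_one ▸ Nat.dvd_gcd hln hlq))
  have h1 : ∏ l ∈ S, lcc χ l n = ∏ l ∈ S.filter (· ∣ q), lcc χ l n := by
    rw [prod_filter]
    refine prod_congr rfl fun l _ => ?_
    split_ifs with h
    · rfl
    · exact lcc_one χ h n
  rw [h1, cx_prod]
  have h2 : ∏ l ∈ S.filter (· ∣ q), cx (lcc χ l n) =
      ∏ l ∈ S.filter (· ∣ q), χ ((cp q l n : ℕ) : ZMod q) := by
    refine prod_congr rfl fun l hl => ?_
    rw [mem_filter] at hl
    exact cx_lcc χ hχ hq (hS l hl.1) hl.2 (hnl l (hS l hl.1) hl.2)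
  rw [h2, ← map_prod, ← Nat.cast_prod]
  apply chi_mod
  apply modEq_of hq
  intro l₀ hl₀ hlq
  have hmem : l₀ ∈ S.filter (· ∣ q) := mem_filter.2 ⟨hSq l₀ hl₀ hlq, hlq⟩
  rw [← mul_prod_erase _ _ hmem]
  have h3 : ∏ l ∈ (S.filter (· ∣ q)).erase l₀, cp q l n ≡ 1 [MOD l₀ ^ q.factorization l₀] := by
    have h4 : ∀ T : Finset ℕ, (∀ l ∈ T, l.Prime ∧ l ≠ l₀) →
        ∏ l ∈ T, cp q l n ≡ 1 [MOD l₀ ^ q.factorization l₀] := by
      intro T
      induction T using Finset.induction_on with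
      | empty => intro _; rw [prod_empty]
      | insert l T hlT ih =>
        intro hT
        rw [prod_insert hlT]
        obtain ⟨hl, hne⟩ := hT l (mem_insert_self l T)
        have h5 := ih fun l' hl' => hT l' (mem_insert_of_mem hl')
        have h6 : cp q l n ≡ 1 [MOD l₀ ^ q.factorization l₀] := by
          refine (cp_spec hl hq n).2.of_dvd ?_
          have h7 : Nat.Coprime (l₀ ^ q.factorization l₀) (l ^ q.factorization l) :=
            Nat.Coprime.pow _ _ ((Nat.coprime_primes hl₀ hl).2 (Ne.symm hne))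
          have h8 : l₀ ^ q.factorization l₀ ∣
              l ^ q.factorization l * (q / l ^ q.factorization l) := by
            rw [Nat.ordProj_mul_ordCompl_eq_self]
            exact Nat.ordProj_dvd q l₀
          exact h7.dvd_of_dvd_mul_left h8
        have := h6.mul h5
        rwa [mul_one] at this
    exact h4 _ fun l hl => by
      rw [mem_erase, mem_filter] at hl
      exact ⟨hS l hl.2.1, hl.1⟩
  have := (cp_spec hl₀ hq n).1.mul h3
  rwa [mul_one] at this

theorem t_DEC : S_DEC := by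
  classical
  intro f hf q χ hq hχ S hS hSq
  have hq0 : q ≠ 0 := by omega
  have hf1 : f 1 = 1 := by
    have := hf 1 1 le_rfl le_rfl
    rw [mul_one] at this
    exact mul_eq_left.1 this.symm
  set e : ℕ → ℤˣ := fun l => f l * ∏ l' ∈ S.erase l, lcc χ l' l with he
  have hcop : ∀ p : ℕ, p.Prime → ¬ p ∣ q → Nat.Coprime p q := fun p hp h =>
    (Nat.Prime.coprime_iff_not_dvd hp).2 h
  refine ⟨lcc χ, e, fun l hl => lcc_LC χ hχ hq0 (hS l hl), ?_, ?_⟩
  · intro l hl hlq
    refine ⟨lcc_one χ hlq, ?_⟩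
    have h1 := prod_lcc χ hχ hq0 S hS hSq (hcop l (hS l hl) hlq)
    rw [← mul_prod_erase _ _ hl, lcc_one χ hlq, one_mul] at h1
    change cx (e l) = cx (f l) * χ (l : ZMod q)
    rw [he]
    simp only
    rw [cx_mul, h1]
  · have hgmul : ∀ m n : ℕ, 1 ≤ m → 1 ≤ n → ∏ l ∈ S, loc l (lcc χ l) (e l) (m * n) =
        (∏ l ∈ S, loc l (lcc χ l) (e l) m) * ∏ l ∈ S, loc l (lcc χ l) (e l) n := by
      intro m n hm hn
      rw [← prod_mul_distrib]
      exact prod_congr rfl fun l hl => loc_cm (hS l hl) (lcc_LC χ hχ hq0 (hS l hl)) (e l) m n hm hn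
    have hgp : ∀ p : ℕ, p.Prime → (p ∈ S ∨ (((f p : ℤˣ) : ℤ) : ℂ) = χ (p : ZMod q)) →
        f p = ∏ l ∈ S, loc l (lcc χ l) (e l) p := by
      intro p hp h
      by_cases hpS : p ∈ S
      · rw [← mul_prod_erase _ _ hpS]
        have h1 : loc p (lcc χ p) (e p) p = e p := by
          have h2 := loc_mul hp.two_le (lcc χ p) (e p) (n := 1) le_rfl
          have h3 : ¬ p ∣ 1 := fun h => hp.one_lt.ne' (Nat.dvd_one.1 h)
          have h4 : lcc χ p 1 = 1 := by
            have := (lcc_LC χ hχ hq0 hp).mul 1 1 h3 h3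
            rw [mul_one] at this
            exact mul_eq_left.1 this.symm
          rwa [mul_one, loc_of_not_dvd _ _ h3, h4, mul_one] at h2
        have h2 : ∏ l ∈ S.erase p, loc l (lcc χ l) (e l) p = ∏ l ∈ S.erase p, lcc χ l p := by
          refine prod_congr rfl fun l hl => ?_
          rw [mem_erase] at hl
          exact loc_of_not_dvd _ _ fun h =>
            hl.1 ((Nat.prime_dvd_prime_iff_eq (hS l hl.2) hp).1 h)
        rw [h1, h2, he]
        simp only
        rw [mul_assoc, ← sq, Int.units_sq, mul_one]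
      · have hpq : ¬ p ∣ q := fun h0 => hpS (hSq p hp h0)
        have hfp := h.resolve_left hpS
        have h1 := prod_lcc χ hχ hq0 S hS hSq (hcop p hp hpq)
        have h2 : ∏ l ∈ S, loc l (lcc χ l) (e l) p = ∏ l ∈ S, lcc χ l p := by
          refine prod_congr rfl fun l hl => ?_
          exact loc_of_not_dvd _ _ fun h =>
            hpS (((Nat.prime_dvd_prime_iff_eq (hS l hl) hp).1 h) ▸ hl)
        rw [h2]
        apply cx_inj
        rw [h1]
        exact hfp
    intro n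
    induction n using Nat.strong_induction_on with
    | _ n ih =>
      intro hn h
      by_cases hn1 : n = 1
      · subst hn1
        rw [hf1]
        symm
        apply prod_eq_one
        intro l hl
        have h3 : ¬ l ∣ 1 := fun h => (hS l hl).one_lt.ne' (Nat.dvd_one.1 h)
        rw [loc_of_not_dvd _ _ h3]
        have := (lcc_LC χ hχ hq0 (hS l hl)).mul 1 1 h3 h3
        rw [mul_one] at this
        exact mul_eq_left.1 this.symm
      · obtain ⟨p, hp, n', rfl⟩ := Nat.exists_prime_and_dvd hn1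
        have hn' : 1 ≤ n' := Nat.pos_of_ne_zero (by rintro rfl; omega)
        rw [hf p n' hp.one_lt.le hn', hgmul p n' hp.one_lt.le hn',
          hgp p hp (h p hp (Dvd.intro n' rfl)),
          ih n' (by nlinarith [hp.two_le]) hn' fun p' hp' hd =>
            h p' hp' (Dvd.dvd.mul_left hd p)]

end main

end Run7.h594.HU
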