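import Pool.Agent.Run7.h747.HU.Stm

/-! Piece GLUE (helper594). -/

set_option autoImplicit false

namespace Run7.h594.HU

open Run7.h747.HU Finset

lemma locA_fuel {l : ℕ} (hl : 2 ≤ l) (c : ℕ → ℤˣ) (e : ℤˣ) : ∀ n : ℕ, 1 ≤ n → ∀ k : ℕ, n ≤ k →
    locA l c e k n = loc l c e n := by
  intro n
  induction n using Nat.strong_induction_on with
  | _ n ih =>
    intro hn k hk
    unfold loc
    obtain ⟨k', rfl⟩ : ∃ k', k = k' + 1 := ⟨k - 1, by omega⟩
    obtain ⟨n', rfl⟩ : ∃ n', n = n' + 1 := ⟨n - 1, by omega⟩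
    simp only [locA]
    split_ifs with h
    · have h1 : (n' + 1) / l < n' + 1 := Nat.div_lt_self (by omega) (by omega)
      have h2 : 1 ≤ (n' + 1) / l :=
        (Nat.one_le_div_iff (by omega)).2 (Nat.le_of_dvd (by omega) (Nat.dvd_of_mod_eq_zero h))
      rw [ih _ h1 h2 k' (by omega), ih _ h1 h2 n' (by omega)]
    · rfl

lemma loc_of_not_dvd {l : ℕ} (c : ℕ → ℤˣ) (e : ℤˣ) {n : ℕ} (h : ¬ l ∣ n) :
    loc l c e n = c n := by
  have hn : 1 ≤ n := by
    rcases Nat.eq_zero_or_pos n with rfl | h0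
    · exact absurd (dvd_zero l) h
    · exact h0
  obtain ⟨n', rfl⟩ : ∃ n', n = n' + 1 := ⟨n - 1, by omega⟩
  unfold loc
  simp only [locA]
  rw [if_neg fun h0 => h (Nat.dvd_of_mod_eq_zero h0)]

lemma loc_mul {l : ℕ} (hl : 2 ≤ l) (c : ℕ → ℤˣ) (e : ℤˣ) {n : ℕ} (hn : 1 ≤ n) :
    loc l c e (l * n) = e * loc l c e n := by
  have h1 : 1 ≤ l * n := Nat.one_le_iff_ne_zero.2 (by positivity)
  have h2 : n < l * n := by nlinarith
  rw [← locA_fuel hl c e (l * n) h1 (l * n) le_rfl]
  obtain ⟨n', hn'⟩ : ∃ n', l * n = n' + 1 := ⟨l * n - 1, by omega⟩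
  have h3 : (n' + 1) / l = n := by
    rw [← hn']; exact Nat.mul_div_cancel_left n (by omega)
  have h4 : (n' + 1) % l = 0 := by
    rw [← hn']; exact Nat.mul_mod_right l n
  rw [hn']
  simp only [locA]
  rw [if_pos h4, h3, locA_fuel hl c e n hn n' (by omega)]

lemma loc_stable {l : ℕ} (hl : l.Prime) {c : ℕ → ℤˣ} (hc : LC l c) (e : ℤˣ) :
    ∀ n : ℕ, 1 ≤ n → ∃ K : ℕ, ∀ m : ℕ, 1 ≤ m → m ≡ n [MOD l ^ K] →
      loc l c e m = loc l c e n := by
  intro n
  induction n using Nat.strong_induction_on with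
  | _ n ih =>
    intro hn
    by_cases hd : l ∣ n
    · obtain ⟨n', rfl⟩ := hd
      have hn' : 1 ≤ n' := by
        rcases Nat.eq_zero_or_pos n' with rfl | h0
        · omega
        · exact h0
      obtain ⟨K, hK⟩ := ih n' (by nlinarith [hl.two_le]) hn'
      refine ⟨K + 1, fun m hm hmod => ?_⟩
      have hlm : l ∣ m := by
        have h1 : m ≡ l * n' [MOD l] := hmod.of_dvd (dvd_pow_self l (Nat.succ_ne_zero K))
        exact (Nat.modEq_zero_iff_dvd).1
          (h1.trans ((Nat.modEq_zero_iff_dvd).2 (Dvd.intro n' rfl)))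
      obtain ⟨m', rfl⟩ := hlm
      have hm' : 1 ≤ m' := by
        rcases Nat.eq_zero_or_pos m' with rfl | h0
        · omega
        · exact h0
      have h2 : m' ≡ n' [MOD l ^ K] := by
        rw [pow_succ, mul_comm (l ^ K) l] at hmod
        exact Nat.ModEq.mul_left_cancel' hl.ne_zero hmod
      rw [loc_mul hl.two_le c e hm', loc_mul hl.two_le c e hn', hK m' hm' h2]
    · refine ⟨3, fun m hm hmod => ?_⟩
      have h1 : m ≡ n [MOD l] := hmod.of_dvd (dvd_pow_self l (by norm_num))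
      have h2 : ¬ l ∣ m := fun h => hd ((Nat.modEq_zero_iff_dvd).1
        (h1.symm.trans ((Nat.modEq_zero_iff_dvd).2 h)))
      rw [loc_of_not_dvd c e h2, loc_of_not_dvd c e hd]
      apply hc.per m n h2
      split_ifs with h
      · subst h
        exact hmod
      · exact h1

lemma pat_stable {l : ℕ} (hl : l.Prime) {c : ℕ → ℤˣ} (hc : LC l c) (e : ℤˣ) (N : ℕ) (hN : 1 ≤ N) :
    ∃ K : ℕ, ∀ n : ℕ, 1 ≤ n → n ≡ N [MOD l ^ K] → pat (loc l c e) n = pat (loc l c e) N := by
  have h := fun i : Fin 4 => loc_stable hl hc e (N + i) (by omega)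
  choose K hK using h
  refine ⟨∑ i, K i, fun n hn hmod => ?_⟩
  funext i
  unfold pat
  apply hK i (n + i) (by omega)
  apply Nat.ModEq.add_right
  exact hmod.of_dvd (pow_dvd_pow l (single_le_sum (fun _ _ => Nat.zero_le _) (mem_univ i)))

/-- the number of the `t < X` with `p ∣ a + M t` -/
lemma card_bad (a M X p : ℕ) (hp : p.Prime) (hM : Nat.Coprime p M) :
    (((range X).filter fun t => p ∣ a + M * t).card : ℝ) ≤ (X : ℝ) / p + 1 := by
  rcases ((range X).filter fun t => p ∣ a + M * t).eq_empty_or_nonempty with h | ⟨t₀, ht₀⟩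
  · rw [h, card_empty]
    have : (0 : ℝ) ≤ (X : ℝ) / p := by positivity
    push_cast
    linarith
  · have h1 : ((range X).filter fun t => p ∣ a + M * t) ⊆
        (range X).filter fun t => t ≡ t₀ [MOD p] := by
      intro t ht
      rw [mem_filter] at ht ht₀ ⊢
      refine ⟨ht.1, ?_⟩
      have h2 : a + M * t ≡ a + M * t₀ [MOD p] :=
        ((Nat.modEq_zero_iff_dvd).2 ht.2).trans ((Nat.modEq_zero_iff_dvd).2 ht₀.2).symm
      have h3 := Nat.ModEq.add_left_cancel' a h2
      exact Nat.ModEq.cancel_left_of_coprime (by rwa [Nat.coprime_iff_gcd_eq_one] at hM) h3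
    have h2 : (((range X).filter fun t => t ≡ t₀ [MOD p]).card) ≤ X / p + 1 := by
      rw [← Nat.count_eq_card_filter_range, Nat.count_modEq_card X hp.pos]
      split_ifs <;> omega
    calc (((range X).filter fun t => p ∣ a + M * t).card : ℝ)
        ≤ (((range X).filter fun t => t ≡ t₀ [MOD p]).card : ℝ) := by
          exact_mod_cast card_le_card h1
      _ ≤ ((X / p + 1 : ℕ) : ℝ) := by exact_mod_cast h2
      _ ≤ (X : ℝ) / p + 1 := by
          push_cast
          have : ((X / p : ℕ) : ℝ) ≤ (X : ℝ) / p := Nat.cast_div_le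
          linarith

/-- tails of the sum of reciprocals -/
lemma tail (E : Set ℕ) (hE : Summable (fun p : E => (1 : ℝ) / (p : ℕ))) (ε : ℝ) (hε : 0 < ε) :
    ∃ y : ℕ, ∀ F : Finset ℕ, (∀ p ∈ F, p ∈ E ∧ y < p) → ∑ p ∈ F, (1 : ℝ) / p ≤ ε := by
  classical
  obtain ⟨s, hs⟩ := summable_iff_vanishing_norm.1 hE ε hε
  refine ⟨s.sup (fun p => (p : ℕ)), fun F hF => ?_⟩
  have h1 := hs (F.subtype (· ∈ E)) (by
    rw [Finset.disjoint_left]
    intro p hp hps
    rw [Finset.mem_subtype] at hp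
    have h2 := (hF p hp).2
    have h3 : (p : ℕ) ≤ s.sup (fun p => (p : ℕ)) := Finset.le_sup (f := fun p : E => (p : ℕ)) hps
    omega)
  rw [Finset.sum_subtype_of_mem (fun p : ℕ => (1 : ℝ) / p) (fun p hp => (hF p hp).1)] at h1
  exact (le_abs_self _).trans h1.le

/-- the sieve -/
lemma sieve (E : Set ℕ) (hE : Summable (fun p : E => (1 : ℝ) / (p : ℕ)))
    (y : ℕ) (hy : ∀ F : Finset ℕ, (∀ p ∈ F, p ∈ E ∧ y < p) → ∑ p ∈ F, (1 : ℝ) / p ≤ 1 / 16)
    (a M : ℕ) (ha : 1 ≤ a) (hM0 : 1 ≤ M) (hp : ∀ p ∈ E, y < p → p.Prime ∧ Nat.Coprime p M) :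
    ∃ t : ℕ, ∀ p ∈ E, y < p → ∀ i : Fin 4, ¬ p ∣ a + M * t + i := by
  classical
  have hM : (1 : ℝ) ≤ M := by exact_mod_cast hM0
  obtain ⟨w, hw⟩ := tail E hE (1 / (64 * M)) (by positivity)
  by_contra hcon
  push Not at hcon
  set B : ℕ := 4 * (w + 1) + a + 3 with hB
  set X : ℕ := 2 * B with hX
  set Z : ℕ := a + M * X + 3 with hZ
  set F : Finset ℕ := (range (Z + 1)).filter (fun p => p ∈ E ∧ y < p) with hF
  have hFp : ∀ p ∈ F, p ∈ E ∧ y < p := fun p hp => (mem_filter.1 hp).2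
  have hcov : range X ⊆ F.biUnion fun p => (univ : Finset (Fin 4)).biUnion fun i =>
      (range X).filter fun t => p ∣ (a + (i : ℕ)) + M * t := by
    intro t ht
    obtain ⟨p, hpE, hyp, i, hd⟩ := hcon t
    rw [mem_range] at ht
    have hi := i.isLt
    have hle : p ≤ Z := by
      have h1 := Nat.le_of_dvd (by omega) hd
      have h2 : M * t ≤ M * X := Nat.mul_le_mul_left M ht.le
      omega
    simp only [mem_biUnion, mem_filter, mem_univ, true_and, mem_range]
    refine ⟨p, ?_, i, ht, ?_⟩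
    · rw [hF, mem_filter, mem_range]
      exact ⟨by omega, hpE, hyp⟩
    · have : a + (i : ℕ) + M * t = a + M * t + i := by ring
      rw [this]; exact hd
  have h1 : (X : ℝ) ≤ ∑ p ∈ F, 4 * ((X : ℝ) / p + 1) := by
    have h2 := card_le_card hcov
    rw [card_range] at h2
    have h3 : ((F.biUnion fun p => (univ : Finset (Fin 4)).biUnion fun i =>
      (range X).filter fun t => p ∣ (a + (i : ℕ)) + M * t).card : ℝ) ≤
        ∑ p ∈ F, 4 * ((X : ℝ) / p + 1) := by
      refine le_trans (Nat.cast_le.2 card_biUnion_le) ?_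
      rw [Nat.cast_sum]
      refine sum_le_sum fun p hpF => ?_
      obtain ⟨hpE, hyp⟩ := hFp p hpF
      obtain ⟨hpp, hcop⟩ := hp p hpE hyp
      refine le_trans (Nat.cast_le.2 card_biUnion_le) ?_
      rw [Nat.cast_sum]
      calc ∑ i : Fin 4, (((range X).filter fun t => p ∣ (a + (i : ℕ)) + M * t).card : ℝ)
          ≤ ∑ _i : Fin 4, ((X : ℝ) / p + 1) :=
            sum_le_sum fun i _ => card_bad (a + i) M X p hpp hcop
        _ = 4 * ((X : ℝ) / p + 1) := by
            rw [sum_const, card_univ, Fintype.card_fin, nsmul_eq_mul]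
            norm_num
    exact le_trans (by exact_mod_cast h2) h3
  have h2 : ∑ p ∈ F, 4 * ((X : ℝ) / p + 1) = 4 * X * ∑ p ∈ F, (1 : ℝ) / p + 4 * F.card := by
    have h0 : (4 * F.card : ℝ) = ∑ _p ∈ F, (4 : ℝ) := by
      rw [sum_const, nsmul_eq_mul, mul_comm]
    rw [h0, mul_sum, ← sum_add_distrib]
    exact sum_congr rfl fun p _ => by ring
  have h3 := hy F hFp
  have h4 : (F.card : ℝ) ≤ (w + 1) + Z * (1 / (64 * M)) := by
    have h5 : F.card = (F.filter (fun p => p ≤ w)).card + (F.filter (fun p => ¬ p ≤ w)).card :=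
      (card_filter_add_card_filter_not _).symm
    have h6 : (F.filter (fun p => p ≤ w)).card ≤ w + 1 := by
      calc _ ≤ (range (w + 1)).card := card_le_card fun p hp => by
            rw [mem_filter] at hp
            rw [mem_range]; omega
        _ = w + 1 := card_range _
    have h7 : ((F.filter (fun p => ¬ p ≤ w)).card : ℝ) ≤ Z * (1 / (64 * M)) := by
      have h8 := hw (F.filter (fun p => ¬ p ≤ w)) (fun p hp => by
        rw [mem_filter] at hp
        exact ⟨(hFp p hp.1).1, by omega⟩)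
      calc ((F.filter (fun p => ¬ p ≤ w)).card : ℝ)
          = ∑ p ∈ F.filter (fun p => ¬ p ≤ w), (1 : ℝ) := by simp
        _ ≤ ∑ p ∈ F.filter (fun p => ¬ p ≤ w), (Z : ℝ) * (1 / p) := by
            refine sum_le_sum fun p hp => ?_
            rw [mem_filter] at hp
            have h9 : p ≤ Z := by
              have := hp.1
              rw [hF, mem_filter, mem_range] at this
              omega
            have h10 : 0 < p := by omega
            rw [mul_one_div, le_div_iff₀ (by exact_mod_cast h10), one_mul]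
            exact_mod_cast h9
        _ = Z * ∑ p ∈ F.filter (fun p => ¬ p ≤ w), (1 : ℝ) / p := by rw [mul_sum]
        _ ≤ Z * (1 / (64 * M)) := by gcongr
    have h8 : ((F.filter (fun p => p ≤ w)).card : ℝ) ≤ w + 1 := by exact_mod_cast h6
    rw [h5]
    push_cast
    linarith
  have hX0 : (0 : ℝ) ≤ X := by positivity
  have hZr : (Z : ℝ) * (1 / (64 * M)) ≤ (a + 3) / 64 + X / 64 := by
    rw [hZ]
    push_cast
    rw [mul_one_div, div_le_iff₀ (by positivity)]
    have ha0 : (0 : ℝ) ≤ a := by positivity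
    nlinarith
  rw [h2] at h1
  have h5 : 4 * (X : ℝ) * ∑ p ∈ F, (1 : ℝ) / p ≤ 4 * X * (1 / 16) := by gcongr
  have hBr : (X : ℝ) = 2 * (4 * (w + 1) + a + 3) := by
    rw [hX, hB]; push_cast; ring
  have ha0 : (1 : ℝ) ≤ a := by exact_mod_cast ha
  have hw0 : (0 : ℝ) ≤ w := by positivity
  nlinarith

theorem t_GLUE : S_GLUE := by
  classical
  intro S c e N hS hN hprod E hE hsum
  have hK : ∀ l : ℕ, ∃ K : ℕ, l ∈ S → ∀ n : ℕ, 1 ≤ n → n ≡ N l [MOD l ^ K] →
      pat (loc l (c l) (e l)) n = pat (loc l (c l) (e l)) (N l) := by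
    intro l
    by_cases hl : l ∈ S
    · obtain ⟨K, h⟩ := pat_stable (hS l hl).1 (hS l hl).2 (e l) (N l) (hN l hl)
      exact ⟨K, fun _ => h⟩
    · exact ⟨0, fun h => absurd h hl⟩
  choose K hK using hK
  obtain ⟨y, hy⟩ := tail E hsum (1 / 16) (by norm_num)
  set Ey : Finset ℕ := (range (y + 1)).filter (fun p => p ∈ E) with hEy
  set T : Finset ℕ := S ∪ Ey with hT
  set m : ℕ → ℕ := fun l => if l ∈ S then l ^ K l else l with hm
  set r : ℕ → ℕ := fun l => if l ∈ S then N l else 1 with hr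
  have hTp : ∀ l ∈ T, l.Prime := by
    intro l hl
    rw [hT, mem_union] at hl
    rcases hl with hl | hl
    · exact (hS l hl).1
    · exact (hE l (mem_filter.1 hl).2).1
  have hm0 : ∀ l ∈ T, m l ≠ 0 := by
    intro l hl
    have := (hTp l hl).ne_zero
    simp only [hm]
    split_ifs
    · exact pow_ne_zero _ this
    · exact this
  have hcop1 : ∀ l l' : ℕ, l ∈ T → l'.Prime → l ≠ l' → Nat.Coprime (m l) l' := by
    intro l l' hl hl' hne
    have h1 := (Nat.coprime_primes (hTp l hl) hl').2 hne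
    simp only [hm]
    split_ifs
    · exact Nat.Coprime.pow_left _ h1
    · exact h1
  have hpair : Set.Pairwise (T : Set ℕ) (Function.onFun Nat.Coprime m) := by
    intro l hl l' hl' hne
    have h1 := hcop1 l l' hl (hTp l' hl') hne
    simp only [Function.onFun]
    have : ∀ j : ℕ, Nat.Coprime (m l) (l' ^ j) := fun j => Nat.Coprime.pow_right _ h1
    by_cases h : l' ∈ S
    · have e1 : m l' = l' ^ K l' := by simp only [hm]; rw [if_pos h]
      rw [e1]; exact this _
    · have e1 : m l' = l' := by simp only [hm]; rw [if_neg h]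
      rw [e1]; exact h1
  obtain ⟨a, ha⟩ := Nat.chineseRemainderOfFinset r m T hm0 hpair
  set M : ℕ := ∏ l ∈ T, m l with hM
  have hM0 : 1 ≤ M := Nat.one_le_iff_ne_zero.2 (prod_ne_zero_iff.2 hm0)
  obtain ⟨t, ht⟩ := sieve E hsum y hy (a + M) M (by omega) hM0 (fun p hpE hyp => by
    refine ⟨(hE p hpE).1, ?_⟩
    rw [hM]
    apply Nat.Coprime.prod_right
    intro l hl
    refine (hcop1 l p hl (hE p hpE).1 ?_).symm
    rintro rfl
    rw [hT, mem_union] at hl
    rcases hl with hl | hl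
    · exact (hE l hpE).2.2 hl
    · rw [hEy, mem_filter, mem_range] at hl
      omega)
  have hcong : ∀ l ∈ T, a + M + M * t ≡ r l [MOD m l] := by
    intro l hl
    have h1 : M ≡ 0 [MOD m l] := (Nat.modEq_zero_iff_dvd).2 (dvd_prod_of_mem m hl)
    calc a + M + M * t ≡ r l + 0 + 0 * t [MOD m l] :=
          ((ha l hl).add h1).add (h1.mul_right t)
      _ = r l := by ring
  refine ⟨a + M + M * t, by omega, ?_, ?_⟩
  · rw [← hprod]
    refine prod_congr rfl fun l hl => hK l hl _ (by omega) ?_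
    have := hcong l (by rw [hT]; exact mem_union_left _ hl)
    simp only [hr, hm, if_pos hl] at this
    exact this
  · intro p hpE i
    by_cases hyp : y < p
    · exact ht p hpE hyp i
    · have hpT : p ∈ Ey := by
        rw [hEy, mem_filter, mem_range]
        exact ⟨by omega, hpE⟩
      have h1 := hcong p (by rw [hT]; exact mem_union_right _ hpT)
      have h2 := (hE p hpE)
      simp only [hr, hm, if_neg h2.2.2] at h1
      intro hd
      have h3 : 1 + (i : ℕ) ≡ 0 [MOD p] :=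
        ((h1.symm.add_right (i : ℕ))).trans ((Nat.modEq_zero_iff_dvd).2 hd)
      have h4 := Nat.le_of_dvd (by omega) ((Nat.modEq_zero_iff_dvd).1 h3)
      have := i.isLt
      omega

end Run7.h594.HU
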